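import Pool.Agent.W_MP_1759d0_gt.Final

/-! # Entire functions of Hadamard order at most one on nonpositively curved planes

For every complete Kähler (that is, conformal) metric `lam (dx² + dy²)` on the complex plane whose
Gauss curvature lies in `[-c, 0]` there is a nonconstant entire function whose Hadamard order with
respect to the metric is at most one; the coordinate function works. -/

namespace Pool.Agent.Results.MP_1759d0_gt.HadamardOrderLeOne

open Pool.Agent.W_MP_1759d0_gt
open scoped ContDiff

theorem result (lam : ℂ → ℝ) (hsmooth : ContDiff ℝ ∞ lam) (hpos : ∀ z, 0 < lam z)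
    (hcomplete : IsGComplete lam) (c : ℝ) (hc : 0 < c)
    (hK : ∀ z, -c ≤ gaussCurvature lam z ∧ gaussCurvature lam z ≤ 0) :
    ∃ f : ℂ → ℂ, Differentiable ℂ f ∧ (∃ a b : ℂ, f a ≠ f b) ∧ hadamardOrder lam f ≤ 1 := by
  refine ⟨fun z => z, differentiable_id, ⟨0, 1, zero_ne_one⟩, ?_⟩
  have hsm : ContDiff ℝ 2 lam := contDiff_infty.mp hsmooth 2
  apply hadamardOrder_id_le hsm hpos hcomplete hc.le
  · intro z
    have h1 := (hK z).2
    unfold gaussCurvature at h1
    have h2 : 0 < 2 * lam z := by linarith [hpos z]
    rw [div_le_iff₀ h2] at h1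
    linarith
  · intro z
    have h1 := (hK z).1
    unfold gaussCurvature at h1
    have h2 : 0 < 2 * lam z := by linarith [hpos z]
    rw [le_div_iff₀ h2] at h1
    linarith

end Pool.Agent.Results.MP_1759d0_gt.HadamardOrderLeOne
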